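import Pool.Agent.Helper76.CV.Goals

/-!
# Packet CV-WF2 (MP_eec6f5_gt)
-/

set_option autoImplicit false

namespace Pool.Agent.Helper70.CV.WF2

open Pool.Agent.Helper76.CV

theorem t (hW : WF1) : Pool.Agent.Helper76.CV.WF2 := by
  intro v hv hz
  obtain ⟨-, hW0, -, hWp⟩ := hW
  set w : ℝ := 4 / 25 - v with hw
  have hw0 : 0 < w := by rw [hw]; linarith
  obtain ⟨h1, h2, h3⟩ := hWp w hw0
  set x : ℝ := 1 / (1000 * w) with hx
  have hx0 : 0 < x := by rw [hx]; positivity
  have hwx : 1000 * w * x = 1 := by
    rw [hx]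
    field_simp
  have he0 : 0 < Real.exp (-x) := Real.exp_pos _
  have he1 : Real.exp (-x) ≤ 1 := Real.exp_le_one_iff.2 (by linarith)
  have hlam : lam v = Real.tan (13 * W w) := rfl
  have hz0 : 0 ≤ 13 * W w := by
    have := hW0 w
    linarith
  have hl0 : 0 ≤ lam v := by
    rw [hlam]
    exact Real.tan_nonneg_of_nonneg_of_le_pi_div_two hz0 hz.le
  have hD1 : 0 ≤ deriv W w := by
    rw [h2]
    positivity
  have hD1' : deriv W w ≤ 1 := by
    rw [h2]
    have h4 : 1 + x ≤ Real.exp x := by
      have := Real.add_one_le_exp x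
      linarith
    calc Real.exp (-x) * (1 + x) ≤ Real.exp (-x) * Real.exp x :=
          mul_le_mul_of_nonneg_left h4 he0.le
      _ = 1 := by rw [← Real.exp_add]; simp
  have hD2 : 0 ≤ deriv (deriv W) w := by
    rw [h3]
    positivity
  have hsg : sg v = lam v * deriv W w := rfl
  have hsg1 : sg1 v = 13 * (sg v ^ 2 + deriv W w ^ 2) + lam v * deriv (deriv W) w := rfl
  have hsg0 : 0 ≤ sg v := by
    rw [hsg]
    exact mul_nonneg hl0 hD1
  refine ⟨hsg0, ?_, ?_⟩
  · rw [hsg1]
    have := mul_nonneg hl0 hD2
    positivity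
  · have key : 13 * deriv W w ^ 2 + lam v * deriv (deriv W) w ≤ 131 / 10 + 1 / 10 * sg v ^ 2 := by
      rcases le_total w (1 / 20) with hc | hc
      · have hz1 : 13 * W w ≤ 13 / 20 := by
          rw [h1]
          have : w * Real.exp (-x) ≤ w * 1 := mul_le_mul_of_nonneg_left he1 hw0.le
          linarith
        set z : ℝ := 13 * W w with hzz
        have hcos : 789 / 1000 ≤ Real.cos z := by
          have := Real.one_sub_sq_div_two_le_cos (x := z)
          nlinarith
        have hcos' : 1 / (127 / 100) ≤ Real.cos z := by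
          have := Real.one_sub_sq_div_two_le_cos (x := z)
          nlinarith
        have hsin : Real.sin z ≤ z := Real.sin_le hz0
        have hlz : lam v ≤ 127 / 100 * z := by
          rw [hlam, Real.tan_eq_sin_div_cos, div_le_iff₀ (by linarith)]
          nlinarith
        have e1 : z = 13 * (w * Real.exp (-x)) := by
          rw [hzz, h1]
        have hm : lam v * deriv (deriv W) w ≤ 127 / 100 * 13 * x ^ 2 * Real.exp (-x) ^ 2 := by
          refine (mul_le_mul_of_nonneg_right hlz hD2).trans (le_of_eq ?_)
          rw [e1, h3]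
          have : 127 / 100 * (13 * (w * Real.exp (-x))) * (1000 * x ^ 3 * Real.exp (-x)) =
              127 / 100 * 13 * (1000 * w * x) * x ^ 2 * Real.exp (-x) ^ 2 := by ring
          rw [this, hwx]
          ring
        have hexp : 1 + 2 * x + 2 * x ^ 2 + 4 / 3 * x ^ 3 ≤ Real.exp (2 * x) := by
          have := Real.sum_le_exp_of_nonneg (x := 2 * x) (by linarith) 4
          simp only [Finset.sum_range_succ, Finset.sum_range_zero, Nat.factorial] at this
          norm_num at this
          nlinarith
        have e2 : Real.exp (-x) ^ 2 * Real.exp (2 * x) = 1 := by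
          rw [← Real.exp_nat_mul, ← Real.exp_add]
          simp
        have h5 : 13 * deriv W w ^ 2 = 13 * (1 + x) ^ 2 * Real.exp (-x) ^ 2 := by
          rw [h2]
          ring
        have h6 : 13 * (1 + x) ^ 2 + 127 / 100 * 13 * x ^ 2 ≤ 131 / 10 * Real.exp (2 * x) := by
          nlinarith [mul_nonneg hx0.le (sq_nonneg (x - 1 / 10)), sq_nonneg (x - 1 / 10), hx0,
            pow_pos hx0 3]
        have h7 := mul_le_mul_of_nonneg_left h6 (sq_nonneg (Real.exp (-x)))
        have h8 : Real.exp (-x) ^ 2 * (131 / 10 * Real.exp (2 * x)) = 131 / 10 := by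
          have : Real.exp (-x) ^ 2 * (131 / 10 * Real.exp (2 * x)) =
              131 / 10 * (Real.exp (-x) ^ 2 * Real.exp (2 * x)) := by ring
          rw [this, e2, mul_one]
        rw [h8] at h7
        have h9 : 0 ≤ 1 / 10 * sg v ^ 2 := by positivity
        linarith
      · have hx1 : x ≤ 1 / 50 := by
          rw [hx, div_le_div_iff₀ (by positivity) (by norm_num)]
          linarith
        have h4 : deriv (deriv W) w ≤ 1 / 125 := by
          rw [h3]
          have h5 : x ^ 3 ≤ (1 / 50) ^ 3 := pow_le_pow_left₀ hx0.le hx1 3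
          have h6 : 1000 * x ^ 3 * Real.exp (-x) ≤ 1000 * x ^ 3 * 1 :=
            mul_le_mul_of_nonneg_left he1 (by positivity)
          norm_num at h5
          linarith
        have h5 : 99 / 100 ≤ deriv W w := by
          rw [h2]
          have h6 : 1 - x ≤ Real.exp (-x) := by
            have := Real.add_one_le_exp (-x)
            linarith
          have h7 : (1 - x) * (1 + x) ≤ Real.exp (-x) * (1 + x) :=
            mul_le_mul_of_nonneg_right h6 (by linarith)
          have h8 : x * x ≤ 1 / 50 * (1 / 50) := mul_le_mul hx1 hx1 hx0.le (by norm_num)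
          have h9 : (1 - x) * (1 + x) = 1 - x * x := by ring
          linarith
        have h6 : 99 / 100 * lam v ≤ sg v := by
          rw [hsg]
          have := mul_le_mul_of_nonneg_left h5 hl0
          linarith
        have h7 : lam v * deriv (deriv W) w ≤ lam v * (1 / 125) := mul_le_mul_of_nonneg_left h4 hl0
        have h8 : deriv W w ^ 2 ≤ 1 := pow_le_one₀ hD1 hD1'
        have h9 : 0 ≤ (sg v - 1) ^ 2 := sq_nonneg _
        have h10 : (sg v - 1) ^ 2 = sg v ^ 2 - 2 * sg v + 1 := by ring
        have h11 : 0 ≤ sg v ^ 2 := sq_nonneg _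
        linarith
    rw [hsg1]
    linarith

end Pool.Agent.Helper70.CV.WF2
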